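import Pool.Agent.H816R2.S35Mul4
import Pool.Agent.H816R2.S35Cyc

/-!
A Steiner system `S(3,5,317)` invariant under `x ↦ x + 1` and `x ↦ 4 * x` modulo `317`.
-/

namespace Pool.Agent.Y376.ST

open Pool.Agent.H816R2.S35

def cl317 : List (ℕ × List (List ℕ)) :=
  ([(79, [0, 1, 2, 135, 184]),
    (158, [0, 2, 12, 140, 298]),
    (158, [0, 2, 5, 215, 276]),
    (158, [0, 2, 6, 97, 271]),
    (158, [0, 1, 3, 62, 131]),
    (158, [0, 1, 5, 195, 257]),
    (158, [0, 1, 4, 23, 267]),
    (158, [0, 3, 7, 264, 297]),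
    (158, [0, 4, 9, 189, 302]),
    (158, [0, 1, 6, 45, 127]),
    (158, [0, 1, 7, 100, 260])] : List (ℕ × List ℕ)).map fun c => pointed 317 c.1 c.2

theorem ex317 : ∃ 𝓑 : Set (Finset (Fin (316 + 1))), IsS35 (Fin (316 + 1)) 𝓑 := by
  have h := of_cyc 317 4 158 (by norm_num) (by decide +kernel) cl317 (by decide +kernel)
    (by decide +kernel) (by decide +kernel) (by decide +kernel) [1, 2]
    (by decide +kernel) (by decide +kernel) (by decide +kernel)
  exact transport (ZMod.finEquiv 317).symm.toEquiv h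

end Pool.Agent.Y376.ST
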