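import Pool.Agent.H816R2.S35Mul4
import Pool.Agent.H816R2.S35Cyc

/-!
A Steiner system `S(3,5,326)` invariant under `x ↦ x + 1` and `x ↦ 165 * x` modulo `326`.
-/

namespace Pool.Agent.Y376.ST

open Pool.Agent.H816R2.S35

def cl326 : List (ℕ × List (List ℕ)) :=
  ([(54, [0, 166, 174, 312, 163]),
    (81, [0, 164, 2, 3, 325]),
    (162, [0, 164, 4, 206, 13]),
    (162, [0, 2, 168, 260, 307]),
    (162, [0, 166, 8, 85, 133]),
    (162, [0, 166, 170, 24, 227]),
    (162, [0, 164, 10, 88, 287]),
    (162, [0, 164, 168, 19, 159]),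
    (162, [0, 164, 176, 29, 35]),
    (162, [0, 164, 166, 308, 279]),
    (162, [0, 2, 174, 71, 133]),
    (162, [0, 164, 6, 191, 113])] : List (ℕ × List ℕ)).map fun c => pointed 326 c.1 c.2

theorem ex326 : ∃ 𝓑 : Set (Finset (Fin (325 + 1))), IsS35 (Fin (325 + 1)) 𝓑 := by
  have h := of_cyc 326 165 162 (by norm_num) (by decide +kernel) cl326 (by decide +kernel)
    (by decide +kernel) (by decide +kernel) (by decide +kernel) [1, 2, 163]
    (by decide +kernel) (by decide +kernel) (by decide +kernel)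
  exact transport (ZMod.finEquiv 326).symm.toEquiv h

end Pool.Agent.Y376.ST
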