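import Pool.Agent.Y376.ST.RotCodes

/-!
A Steiner system `S(3,5,161)` on `ZMod 159` and two further points, invariant under `x ↦ x + 1`
and `x ↦ 2 * x` (which exchanges the two further points).
-/

namespace Pool.Agent.Y376.ST

open Pool.Agent.H816R2.S35

def cl161 : List (ℕ × List (List ℕ)) :=
  (1, [[0, 53, 106, 159, 160]]) ::
  ([(26, [54, 3, 106, 4, 159]),
    (26, [0, 54, 108, 58, 103]),
    (13, [111, 9, 106, 67, 113]),
    (52, [0, 3, 60, 106, 14]),
    (52, [0, 54, 111, 30, 139]),
    (52, [0, 108, 111, 64, 91]),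
    (52, [0, 54, 3, 37, 8]),
    (52, [54, 6, 106, 82, 131]),
    (52, [0, 54, 57, 142, 92]),
    (52, [108, 3, 106, 34, 152])] : List (ℕ × List ℕ)).map fun c => pointed2 159 c.1 c.2

theorem ex161 : ∃ 𝓑 : Set (Finset (Fin (160 + 1))), IsS35 (Fin (160 + 1)) 𝓑 := by
  have h := of_cyc2 159 2 52 (by norm_num) (by norm_num) (by decide +kernel) cl161
    (by decide +kernel) (by decide +kernel) (by decide +kernel) (by decide +kernel)
    [1, 3, 11, 53, 159] (by decide +kernel) (by decide +kernel) (by decide +kernel)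
  exact transport (((ZMod.finEquiv 159).symm.toEquiv.sumCongr (Equiv.refl (Fin 2))).trans
    finSumFinEquiv) h

end Pool.Agent.Y376.ST
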