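import Pool.Agent.H816R2.S35Mul4
import Pool.Agent.H816R2.S35Cyc

/-!
Steiner systems `S(3,5,·)` on `X ⊕ Fin f`, `f ≤ 2`, invariant under an abelian group `X` acting
regularly on the first part and trivially on the second one.
-/

namespace Pool.Agent.Y376.ST

open Finset
open Pool.Agent.H816R2.S35

section Main

variable {X : Type} [AddCommGroup X] [Fintype X] [DecidableEq X] {f : ℕ}

/-- translation by `t` -/
def sh (t : X) : X ⊕ Fin f → X ⊕ Fin f := Sum.map (fun y => y + t) id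

theorem sh_inl (t x : X) : sh t (Sum.inl x : X ⊕ Fin f) = Sum.inl (x + t) := rfl

theorem sh_inr (t : X) (k : Fin f) : sh t (Sum.inr k : X ⊕ Fin f) = Sum.inr k := rfl

theorem sh_sh (s t : X) (p : X ⊕ Fin f) : sh s (sh t p) = sh (t + s) p := by
  rcases p with x | k
  · rw [sh_inl, sh_inl, sh_inl, add_assoc]
  · rfl

theorem sh_zero (p : X ⊕ Fin f) : sh (0 : X) p = p := by
  rcases p with x | k
  · rw [sh_inl, add_zero]
  · rfl

theorem sh_inj (t : X) : Function.Injective (sh t : X ⊕ Fin f → X ⊕ Fin f) := by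
  intro p r h
  have := congrArg (sh (-t)) h
  rwa [sh_sh, sh_sh, add_neg_cancel, sh_zero, sh_zero] at this

/-- pairs of distinct elements different from the base point -/
def prsP (D : Finset (X ⊕ Fin f)) : Finset ((X ⊕ Fin f) × (X ⊕ Fin f)) :=
  (D.erase (Sum.inl 0)).offDiag

theorem mem_prsP {D : Finset (X ⊕ Fin f)} {p : (X ⊕ Fin f) × (X ⊕ Fin f)} :
    p ∈ prsP D ↔ (p.1 ≠ Sum.inl 0 ∧ p.1 ∈ D) ∧ (p.2 ≠ Sum.inl 0 ∧ p.2 ∈ D) ∧ p.1 ≠ p.2 := by
  unfold prsP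
  rw [Finset.mem_offDiag, Finset.mem_erase, Finset.mem_erase]

theorem card_prsP {D : Finset (X ⊕ Fin f)} (h5 : D.card = 5)
    (h0 : (Sum.inl 0 : X ⊕ Fin f) ∈ D) : (prsP D).card = 12 := by
  unfold prsP
  rw [Finset.offDiag_card, Finset.card_erase_of_mem h0, h5]

theorem main (hf : f ≤ 2) (θ : X ⊕ Fin f → X ⊕ Fin f) (n : ℕ) (hn : 0 < n)
    (hθ : ∀ x, θ^[n] x = x)
    (𝓓 : Finset (Finset (X ⊕ Fin f))) (h5 : ∀ D ∈ 𝓓, D.card = 5)
    (h0 : ∀ D ∈ 𝓓, (Sum.inl 0 : X ⊕ Fin f) ∈ D)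
    (htr : ∀ D ∈ 𝓓, ∀ x : X, (Sum.inl x : X ⊕ Fin f) ∈ D → D.image (sh (-x)) ∈ 𝓓)
    (hth : ∀ D ∈ 𝓓, D.image θ ∈ 𝓓)
    (reps : List (X ⊕ Fin f))
    (hreps : ∀ d : X ⊕ Fin f, d ≠ Sum.inl 0 → ∃ r ∈ reps, ∃ i : ℕ, θ^[i] r = d)
    (hcov : ∀ r ∈ reps, ∀ e : X ⊕ Fin f, ∃ D ∈ 𝓓, r ∈ D ∧ e ∈ D)
    (hcard : 12 * 𝓓.card ≤ (Fintype.card (X ⊕ Fin f) - 1) * (Fintype.card (X ⊕ Fin f) - 2)) :
    ∃ 𝓑 : Set (Finset (X ⊕ Fin f)), IsS35 (X ⊕ Fin f) 𝓑 := by
  classical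
  have hit : ∀ i : ℕ, ∀ D ∈ 𝓓, D.image (θ^[i]) ∈ 𝓓 := by
    intro i
    induction i with
    | zero =>
      intro D hD
      have : D.image (θ^[0]) = D := by simp
      rw [this]; exact hD
    | succ i ih =>
      intro D hD
      have : D.image (θ^[i + 1]) = (D.image (θ^[i])).image θ := by
        rw [Finset.image_image]
        congr 1
        rw [Function.iterate_succ']
      rw [this]
      exact hth _ (ih D hD)
  have hmul : ∀ i : ℕ, ∀ x, θ^[n * i] x = x := by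
    intro i
    induction i with
    | zero => intro x; simp
    | succ i ih => intro x; rw [Nat.mul_succ, Function.iterate_add_apply, hθ, ih]
  -- every pair is covered
  have hex : ∀ d e : X ⊕ Fin f, d ≠ Sum.inl 0 → ∃ D ∈ 𝓓, d ∈ D ∧ e ∈ D := by
    intro d e hd
    obtain ⟨r, hr, i, rfl⟩ := hreps d hd
    obtain ⟨D, hD, h1, h2⟩ := hcov r hr (θ^[(n - 1) * i] e)
    have hk : θ^[i] (θ^[(n - 1) * i] e) = e := by
      rw [← Function.iterate_add_apply]
      have : i + (n - 1) * i = n * i := by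
        obtain ⟨m, rfl⟩ : ∃ m, n = m + 1 := ⟨n - 1, by omega⟩
        simp only [Nat.add_sub_cancel]; ring
      rw [this, hmul]
    refine ⟨_, hit i D hD, ?_, ?_⟩
    · rw [Finset.mem_image]; exact ⟨_, h1, rfl⟩
    · rw [Finset.mem_image]; exact ⟨_, h2, hk⟩
  -- and only once
  let P : Finset ((X ⊕ Fin f) × (X ⊕ Fin f)) := prsP Finset.univ
  have hP : P.card = (Fintype.card (X ⊕ Fin f) - 1) * (Fintype.card (X ⊕ Fin f) - 2) := by
    show ((Finset.univ.erase (Sum.inl 0 : X ⊕ Fin f)).offDiag).card = _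
    rw [Finset.offDiag_card, Finset.card_erase_of_mem (Finset.mem_univ _), Finset.card_univ]
    have h2 : ∀ m : ℕ, m * m - m = m * (m - 1) := fun m => by rw [Nat.mul_sub, Nat.mul_one]
    rw [h2]
    rfl
  have huniq : ∀ d e : X ⊕ Fin f, d ≠ Sum.inl 0 → e ≠ Sum.inl 0 → d ≠ e →
      ∀ D ∈ 𝓓, ∀ D' ∈ 𝓓, d ∈ D → e ∈ D → d ∈ D' → e ∈ D' → D = D' := by
    intro d e hd he hde D hD D' hD' h1 h2 h3 h4
    by_contra hne
    have hsub : P ⊆ ((𝓓.erase D').biUnion prsP) ∪ ((prsP D').erase (d, e)) := by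
      intro p hp
      have hp' := (mem_prsP (D := Finset.univ)).1 hp
      rw [Finset.mem_union, Finset.mem_biUnion]
      by_cases hpd : p = (d, e)
      · left
        refine ⟨D, Finset.mem_erase.2 ⟨hne, hD⟩, mem_prsP.2 ?_⟩
        rw [hpd]
        exact ⟨⟨hd, h1⟩, ⟨he, h2⟩, hde⟩
      · obtain ⟨E, hE, hE1, hE2⟩ := hex p.1 p.2 hp'.1.1
        by_cases hED : E = D'
        · right
          rw [Finset.mem_erase]
          refine ⟨hpd, mem_prsP.2 ?_⟩
          rw [← hED]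
          exact ⟨⟨hp'.1.1, hE1⟩, ⟨hp'.2.1.1, hE2⟩, hp'.2.2⟩
        · left
          exact ⟨E, Finset.mem_erase.2 ⟨hED, hE⟩, mem_prsP.2
            ⟨⟨hp'.1.1, hE1⟩, ⟨hp'.2.1.1, hE2⟩, hp'.2.2⟩⟩
    have hc1 := Finset.card_le_card hsub
    have hc2 := Finset.card_union_le ((𝓓.erase D').biUnion prsP) ((prsP D').erase (d, e))
    have hc3 : ((𝓓.erase D').biUnion prsP).card ≤ (𝓓.erase D').card * 12 := by
      refine Finset.card_biUnion_le_card_mul _ _ _ ?_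
      intro E hE
      exact (card_prsP (h5 E (Finset.mem_of_mem_erase hE)) (h0 E (Finset.mem_of_mem_erase hE))).le
    have hc4 : ((prsP D').erase (d, e)).card = 11 := by
      rw [Finset.card_erase_of_mem (mem_prsP.2 ⟨⟨hd, h3⟩, ⟨he, h4⟩, hde⟩),
        card_prsP (h5 D' hD') (h0 D' hD')]
    have hc5 : (𝓓.erase D').card = 𝓓.card - 1 := Finset.card_erase_of_mem hD'
    have hc6 : 0 < 𝓓.card := Finset.card_pos.2 ⟨D', hD'⟩
    omega
  -- triples with a moved point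
  have key : ∀ (x : X) (p r : X ⊕ Fin f), p ≠ Sum.inl x → r ≠ Sum.inl x → p ≠ r →
      ∃! B, B ∈ {B | ∃ D ∈ 𝓓, ∃ t : X, B = D.image (sh t)} ∧
        (Sum.inl x : X ⊕ Fin f) ∈ B ∧ p ∈ B ∧ r ∈ B := by
    intro x p r hp hr hpr
    have hx0 : sh (-x) (Sum.inl x : X ⊕ Fin f) = Sum.inl 0 := by
      rw [sh_inl, add_neg_cancel]
    have hd : sh (-x) p ≠ Sum.inl 0 := fun h => hp (sh_inj (-x) (h.trans hx0.symm))
    have he : sh (-x) r ≠ Sum.inl 0 := fun h => hr (sh_inj (-x) (h.trans hx0.symm))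
    have hde : sh (-x) p ≠ sh (-x) r := fun h => hpr (sh_inj _ h)
    have hback : ∀ p : X ⊕ Fin f, sh x (sh (-x) p) = p := by
      intro p
      rw [sh_sh, neg_add_cancel, sh_zero]
    obtain ⟨D, hD, h1, h2⟩ := hex (sh (-x) p) (sh (-x) r) hd
    refine ⟨D.image (sh x), ⟨⟨D, hD, x, rfl⟩, ?_, ?_, ?_⟩, ?_⟩
    · exact Finset.mem_image.2 ⟨Sum.inl 0, h0 D hD, by rw [sh_inl, zero_add]⟩
    · exact Finset.mem_image.2 ⟨sh (-x) p, h1, hback p⟩
    · exact Finset.mem_image.2 ⟨sh (-x) r, h2, hback r⟩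
    · rintro B ⟨⟨D', hD', t, rfl⟩, ha, hb, hc⟩
      obtain ⟨a, haD, hax⟩ := Finset.mem_image.1 ha
      obtain ⟨b, hbD, hbp⟩ := Finset.mem_image.1 hb
      obtain ⟨c, hcD, hcr⟩ := Finset.mem_image.1 hc
      obtain ⟨y, rfl⟩ : ∃ y : X, a = Sum.inl y := by
        rcases a with y | k
        · exact ⟨y, rfl⟩
        · rw [sh_inr] at hax
          exact absurd hax Sum.inr_ne_inl
      rw [sh_inl] at hax
      have hyx : y + t = x := Sum.inl_injective hax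
      have hE := htr D' hD' y haD
      have htx : t + -x = -y := by rw [← hyx]; abel
      have hbE : sh (-x) p ∈ D'.image (sh (-y)) := by
        refine Finset.mem_image.2 ⟨b, hbD, ?_⟩
        rw [← hbp, sh_sh, htx]
      have hcE : sh (-x) r ∈ D'.image (sh (-y)) := by
        refine Finset.mem_image.2 ⟨c, hcD, ?_⟩
        rw [← hcr, sh_sh, htx]
      have heq := huniq _ _ hd he hde _ hE D hD hbE hcE h1 h2
      rw [← heq, Finset.image_image]
      congr 1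
      funext z
      simp only [Function.comp]
      rw [sh_sh, ← hyx]
      congr 1
      abel
  refine ⟨{B | ∃ D ∈ 𝓓, ∃ t : X, B = D.image (sh t)}, ?_, ?_⟩
  · rintro B ⟨D, hD, t, rfl⟩
    rw [Finset.card_image_of_injective _ (sh_inj t)]
    exact h5 D hD
  · intro a b c hab hac hbc
    rcases a with x | i
    · exact key x b c hab.symm hac.symm hbc
    rcases b with x | j
    · obtain ⟨B, ⟨hB, h1, h2, h3⟩, hu⟩ := key x (Sum.inr i) c hab hbc.symm hac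
      exact ⟨B, ⟨hB, h2, h1, h3⟩, fun C hC => hu C ⟨hC.1, hC.2.2.1, hC.2.1, hC.2.2.2⟩⟩
    rcases c with x | k
    · obtain ⟨B, ⟨hB, h1, h2, h3⟩, hu⟩ := key x (Sum.inr i) (Sum.inr j) hac hbc hab
      exact ⟨B, ⟨hB, h2, h3, h1⟩, fun C hC => hu C ⟨hC.1, hC.2.2.2, hC.2.1, hC.2.2.1⟩⟩
    · exfalso
      have h1 : i ≠ j := fun h => hab (by rw [h])
      have h2 : i ≠ k := fun h => hac (by rw [h])
      have h3 : j ≠ k := fun h => hbc (by rw [h])
      have h1' : (i : ℕ) ≠ j := fun h => h1 (Fin.ext h)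
      have h2' : (i : ℕ) ≠ k := fun h => h2 (Fin.ext h)
      have h3' : (j : ℕ) ≠ k := fun h => h3 (Fin.ext h)
      have hi := i.isLt
      have hj := j.isLt
      have hk := k.isLt
      omega

end Main

end Pool.Agent.Y376.ST
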