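import Pool.Agent.Y376.ST.Rot

/-!
Computation with codes for systems `S(3,5,·)` on `X ⊕ Fin f`.
-/

namespace Pool.Agent.Y376.ST

open Finset
open Pool.Agent.H816R2.S35

/-- closure of the classes under translations moving a point to the base point -/
def okTrF (isX : ℕ → Bool) (cs : ℕ → ℕ → ℕ) (cl : List (ℕ × List (List ℕ))) : Bool :=
  cl.all fun c => c.2.all fun D => D.all fun x => (!isX x) || c.2.any fun D' => D.all fun y =>
    D'.contains (cs y x)

section Codes

variable {X : Type} [AddCommGroup X] [Fintype X] [DecidableEq X] {f : ℕ}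

theorem sh_iter (θ₀ : X →+ X) (φ : Fin f → Fin f) (i : ℕ) (a : X) (p : X ⊕ Fin f) :
    (Sum.map θ₀ φ)^[i] (sh (-a) p) = sh (-(θ₀^[i] a)) ((Sum.map θ₀ φ)^[i] p) := by
  induction i generalizing a p with
  | zero => rfl
  | succ i ih =>
    rw [Function.iterate_succ_apply, Function.iterate_succ_apply, Function.iterate_succ_apply]
    have h : Sum.map θ₀ φ (sh (-a) p) = sh (-(θ₀ a)) (Sum.map θ₀ φ p) := by
      rcases p with x | k
      · rw [sh_inl, Sum.map_inl, Sum.map_inl, sh_inl, map_add, map_neg]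
      · rfl
    rw [h, ih]

/-- the set of points with codes in `D` -/
def stP (el : ℕ → X ⊕ Fin f) (D : List ℕ) : Finset (X ⊕ Fin f) := (D.map el).toFinset

theorem mem_stP {el : ℕ → X ⊕ Fin f} {D : List ℕ} {g : X ⊕ Fin f} :
    g ∈ stP el D ↔ ∃ x ∈ D, el x = g := by
  simp [stP]

theorem of_codes (hf : f ≤ 2) (θ₀ : X →+ X) (φ : Fin f → Fin f) (n : ℕ) (hn : 0 < n)
    (hθ : ∀ x, θ₀^[n] x = x) (hφ : ∀ k, φ^[n] k = k)
    (v : ℕ) (hv : Fintype.card (X ⊕ Fin f) = v) (el : ℕ → X ⊕ Fin f) (th : ℕ → ℕ)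
    (isX : ℕ → Bool) (cs : ℕ → ℕ → ℕ)
    (hel : ∀ g : X ⊕ Fin f, ∃ x < v, el x = g)
    (hinj : ∀ x < v, ∀ y < v, el x = el y → x = y)
    (hel0 : el 0 = Sum.inl 0)
    (hth : ∀ x < v, th x < v ∧ el (th x) = Sum.map θ₀ φ (el x))
    (hX : ∀ x < v, ∀ a : X, el x = Sum.inl a → isX x = true)
    (hcs : ∀ x < v, ∀ y < v, ∀ a : X, el y = Sum.inl a → cs x y < v ∧ el (cs x y) = sh (-a) (el x))
    (cl : List (ℕ × List (List ℕ))) (h1 : okCl v cl = true) (h2 : okTrF isX cs cl = true)
    (h3 : okTh th cl = true) (h4 : 12 * cnt cl = (v - 1) * (v - 2))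
    (reps : List ℕ) (hr : (reps.all fun r => decide (r < v)) = true)
    (h5 : reachAll th n reps 1 = 2 ^ v - 1)
    (h6 : (reps.all fun r => cov r (allD th cl) 0 == 2 ^ v - 1) = true) :
    ∃ 𝓑 : Set (Finset (X ⊕ Fin f)), IsS35 (X ⊕ Fin f) 𝓑 := by
  classical
  set θ : X ⊕ Fin f → X ⊕ Fin f := Sum.map θ₀ φ with hθdef
  have hθit : ∀ (i : ℕ) (p : X ⊕ Fin f), θ^[i] p = Sum.map (θ₀^[i]) (φ^[i]) p := by
    intro i
    induction i with
    | zero => intro p; rcases p with x | k <;> rfl
    | succ i ih =>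
      intro p
      rw [Function.iterate_succ_apply, ih, hθdef]
      rcases p with x | k <;> rfl
  have hθn : ∀ p, θ^[n] p = p := by
    intro p
    rw [hθit]
    rcases p with x | k
    · rw [Sum.map_inl, hθ]
    · rw [Sum.map_inr, hφ]
  have hθ00 : ∀ i, θ^[i] (Sum.inl 0 : X ⊕ Fin f) = Sum.inl 0 := by
    intro i
    rw [hθit, Sum.map_inl, iterate_map_zero]
  -- iterates
  have hit : ∀ (i : ℕ) (x : ℕ), x < v → th^[i] x < v ∧ el (th^[i] x) = θ^[i] (el x) := by
    intro i
    induction i with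
    | zero => intro x hx; exact ⟨hx, rfl⟩
    | succ i ih =>
      intro x hx
      rw [Function.iterate_succ_apply', Function.iterate_succ_apply']
      obtain ⟨ha, hb⟩ := ih x hx
      obtain ⟨hc, hd⟩ := hth _ ha
      exact ⟨hc, by rw [hd, hb]⟩
  have hθinj : ∀ i : ℕ, Function.Injective (θ^[i]) := by
    have h1 : Function.Injective θ := by
      intro x y hxy
      have hx := hθn x
      have hy := hθn y
      obtain ⟨m, rfl⟩ : ∃ m, n = m + 1 := ⟨n - 1, by omega⟩
      rw [Function.iterate_succ_apply] at hx hy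
      rw [← hx, ← hy, hxy]
    exact fun i => h1.iterate i
  -- unpack the checks
  have hok : ∀ c ∈ cl, 0 < c.1 ∧ ∀ D ∈ c.2, D.length = 5 ∧ D.Nodup ∧ (∀ x ∈ D, x < v) ∧
      0 ∈ D := by
    intro c hc
    unfold okCl at h1
    rw [List.all_eq_true] at h1
    have h := h1 c hc
    rw [Bool.and_eq_true, decide_eq_true_eq, List.all_eq_true] at h
    refine ⟨h.1, ?_⟩
    intro D hD
    have h' := h.2 D hD
    unfold okD at h'
    simp only [Bool.and_eq_true, beq_iff_eq, decide_eq_true_eq, List.all_eq_true,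
      List.contains_iff_mem] at h'
    exact ⟨h'.1.1.1, h'.1.1.2, h'.1.2, h'.2⟩
  have hokT : ∀ c ∈ cl, ∀ D ∈ c.2, ∀ x ∈ D, isX x = true → ∃ D' ∈ c.2, ∀ y ∈ D, cs y x ∈ D' := by
    intro c hc D hD x hx hxX
    unfold okTrF at h2
    rw [List.all_eq_true] at h2
    have h2' := h2 c hc
    rw [List.all_eq_true] at h2'
    have h2'' := h2' D hD
    rw [List.all_eq_true] at h2''
    have h := h2'' x hx
    rw [hxX, Bool.not_true, Bool.false_or] at h
    simpa only [List.all_eq_true, List.any_eq_true, List.contains_iff_mem] using h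
  have hokΘ : ∀ c ∈ cl, ∀ D ∈ c.2, ∃ D' ∈ c.2, ∀ y ∈ D, th^[c.1] y ∈ D' := by
    intro c hc D hD
    unfold okTh at h3
    simp only [List.all_eq_true, List.any_eq_true, List.contains_iff_mem, iter_eq,
      List.mem_map, forall_exists_index, and_imp, forall_apply_eq_imp_iff₂] at h3
    exact h3 c hc D hD
  have hmemL : ∀ E, E ∈ allD th cl ↔ ∃ c ∈ cl, ∃ D ∈ c.2, ∃ i < c.1, E = D.map (th^[i]) := by
    intro E
    unfold allD
    simp only [List.mem_flatMap, mem_orb]
  -- cardinality of the point sets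
  have hcardst : ∀ c ∈ cl, ∀ D ∈ c.2, (stP el D).card = 5 := by
    intro c hc D hD
    obtain ⟨ha, hb, hlt, _⟩ := (hok c hc).2 D hD
    unfold stP
    rw [List.toFinset_card_of_nodup, List.length_map, ha]
    exact List.Nodup.map_on (fun x hx y hy hxy => hinj x (hlt x hx) y (hlt y hy) hxy) hb
  have hstit : ∀ c ∈ cl, ∀ D ∈ c.2, ∀ i, stP el (D.map (th^[i])) = (stP el D).image (θ^[i]) := by
    intro c hc D hD i
    obtain ⟨_, _, hlt, _⟩ := (hok c hc).2 D hD
    ext g
    simp only [mem_stP, Finset.mem_image, List.mem_map]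
    constructor
    · rintro ⟨x, ⟨y, hy, rfl⟩, rfl⟩
      exact ⟨el y, ⟨y, hy, rfl⟩, ((hit i y (hlt y hy)).2).symm⟩
    · rintro ⟨a, ⟨y, hy, rfl⟩, rfl⟩
      exact ⟨_, ⟨y, hy, rfl⟩, (hit i y (hlt y hy)).2⟩
  let 𝓓 : Finset (Finset (X ⊕ Fin f)) := ((allD th cl).map (stP el)).toFinset
  have hmem : ∀ E, E ∈ 𝓓 ↔ ∃ c ∈ cl, ∃ D ∈ c.2, ∃ i < c.1, E = (stP el D).image (θ^[i]) := by
    intro E
    rw [List.mem_toFinset, List.mem_map]
    constructor
    · rintro ⟨L, hL, rfl⟩
      obtain ⟨c, hc, D, hD, i, hi, rfl⟩ := (hmemL L).1 hL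
      exact ⟨c, hc, D, hD, i, hi, hstit c hc D hD i⟩
    · rintro ⟨c, hc, D, hD, i, hi, rfl⟩
      exact ⟨_, (hmemL _).2 ⟨c, hc, D, hD, i, hi, rfl⟩, hstit c hc D hD i⟩
  have hsub : ∀ c ∈ cl, ∀ D' ∈ c.2, ∀ S : Finset (X ⊕ Fin f), S.card = 5 → S ⊆ stP el D' →
      S = stP el D' := by
    intro c hc D' hD' S hS hSD
    exact Finset.eq_of_subset_of_card_le hSD (by rw [hcardst c hc D' hD', hS])
  refine main hf θ n hn hθn 𝓓 ?_ ?_ ?_ ?_ (reps.map el) ?_ ?_ ?_
  · intro E hE
    obtain ⟨c, hc, D, hD, i, hi, rfl⟩ := (hmem E).1 hE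
    rw [Finset.card_image_of_injective _ (hθinj i)]
    exact hcardst c hc D hD
  · intro E hE
    obtain ⟨c, hc, D, hD, i, hi, rfl⟩ := (hmem E).1 hE
    obtain ⟨_, _, _, h0⟩ := (hok c hc).2 D hD
    exact Finset.mem_image.2 ⟨Sum.inl 0, mem_stP.2 ⟨0, h0, hel0⟩, hθ00 i⟩
  · intro E hE z hz
    obtain ⟨c, hc, D, hD, i, hi, rfl⟩ := (hmem E).1 hE
    obtain ⟨w, hw, hwz⟩ := Finset.mem_image.1 hz
    obtain ⟨x, hx, rfl⟩ := mem_stP.1 hw
    obtain ⟨_, _, hlt, _⟩ := (hok c hc).2 D hD
    obtain ⟨a, ha⟩ : ∃ a : X, el x = Sum.inl a := by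
      rcases hex : el x with a | k
      · exact ⟨a, rfl⟩
      · rw [hex, hθit, Sum.map_inr] at hwz
        exact absurd hwz Sum.inr_ne_inl
    have hza : θ₀^[i] a = z := by
      rw [ha, hθit, Sum.map_inl] at hwz
      exact Sum.inl_injective hwz
    obtain ⟨D', hD', hall⟩ := hokT c hc D hD x hx (hX x (hlt x hx) a ha)
    refine (hmem _).2 ⟨c, hc, D', hD', i, hi, ?_⟩
    have : (stP el D).image (sh (-a)) = stP el D' := by
      refine hsub c hc D' hD' _ ?_ ?_
      · rw [Finset.card_image_of_injective _ (sh_inj _)]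
        exact hcardst c hc D hD
      · intro g hg
        obtain ⟨w, hw, rfl⟩ := Finset.mem_image.1 hg
        obtain ⟨y, hy, rfl⟩ := mem_stP.1 hw
        exact mem_stP.2 ⟨_, hall y hy, (hcs y (hlt y hy) x (hlt x hx) a ha).2⟩
    rw [← this, Finset.image_image, Finset.image_image]
    congr 1
    funext w
    simp only [Function.comp]
    rw [hθdef, sh_iter, hza]
  · intro E hE
    obtain ⟨c, hc, D, hD, i, hi, rfl⟩ := (hmem E).1 hE
    have him : ((stP el D).image (θ^[i])).image θ = (stP el D).image (θ^[i + 1]) := by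
      rw [Finset.image_image]
      congr 1
      rw [Function.iterate_succ']
    rw [him]
    by_cases hi' : i + 1 < c.1
    · exact (hmem _).2 ⟨c, hc, D, hD, i + 1, hi', rfl⟩
    · have hic : i + 1 = c.1 := by omega
      obtain ⟨D', hD', hall⟩ := hokΘ c hc D hD
      obtain ⟨_, _, hlt, _⟩ := (hok c hc).2 D hD
      refine (hmem _).2 ⟨c, hc, D', hD', 0, (hok c hc).1, ?_⟩
      have h0 : (stP el D').image (θ^[0]) = stP el D' := by simp
      rw [h0]
      refine hsub c hc D' hD' _ ?_ ?_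
      · rw [Finset.card_image_of_injective _ (hθinj _)]
        exact hcardst c hc D hD
      · intro g hg
        obtain ⟨w, hw, rfl⟩ := Finset.mem_image.1 hg
        obtain ⟨y, hy, rfl⟩ := mem_stP.1 hw
        rw [hic]
        exact mem_stP.2 ⟨_, hall y hy, (hit c.1 y (hlt y hy)).2⟩
  · intro d hd
    obtain ⟨x, hx, rfl⟩ := hel d
    have hx0 : x ≠ 0 := by
      rintro rfl
      exact hd hel0
    have ht : Nat.testBit (reachAll th n reps 1) x = true := by
      rw [h5, Nat.testBit_two_pow_sub_one]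
      exact decide_eq_true hx
    rcases reachAll_spec _ _ _ _ _ ht with h | ⟨r, hr', i, hi⟩
    · exfalso
      rw [Nat.testBit_one_eq_true_iff_self_eq_zero] at h
      exact hx0 h
    · refine ⟨el r, List.mem_map.2 ⟨r, hr', rfl⟩, i, ?_⟩
      rw [List.all_eq_true] at hr
      have hrv : r < v := of_decide_eq_true (hr r hr')
      rw [← (hit i r hrv).2, hi]
  · intro g hg e
    obtain ⟨r, hr', rfl⟩ := List.mem_map.1 hg
    obtain ⟨x, hx, rfl⟩ := hel e
    rw [List.all_eq_true] at h6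
    have h := h6 r hr'
    rw [beq_iff_eq] at h
    have ht : Nat.testBit (cov r (allD th cl) 0) x = true := by
      rw [h, Nat.testBit_two_pow_sub_one]
      exact decide_eq_true hx
    rcases cov_spec _ _ _ _ ht with h | ⟨D, hD, h7, h8⟩
    · simp at h
    · exact ⟨stP el D, List.mem_toFinset.2 (List.mem_map.2 ⟨D, hD, rfl⟩), mem_stP.2 ⟨r, h7, rfl⟩,
        mem_stP.2 ⟨x, h8, rfl⟩⟩
  · have hc : 𝓓.card ≤ cnt cl := by
      refine le_trans (List.toFinset_card_le _) ?_
      rw [List.length_map, length_allD]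
    rw [hv, ← h4]
    exact Nat.mul_le_mul_left _ hc

end Codes

/-! ### Cyclic groups with two fixed points -/

/-- the point with code `x` -/
def el2 (w : ℕ) (x : ℕ) : ZMod w ⊕ Fin 2 :=
  if x < w then Sum.inl (x : ZMod w) else Sum.inr (if x = w then 0 else 1)

/-- multiplication by `g` on the first part, exchange of the two fixed points -/
def th2 (w g : ℕ) (x : ℕ) : ℕ := if x < w then g * x % w else if x = w then w + 1 else w

/-- translation of `x` by `-y` -/
def cs2 (w : ℕ) (x y : ℕ) : ℕ := if x < w then (w - y + x) % w else x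

/-- the pointed blocks of a block -/
def pointed2 (w m : ℕ) (B : List ℕ) : ℕ × List (List ℕ) :=
  (m, (B.filter fun x => decide (x < w)).map fun x => B.map fun y => cs2 w y x)

theorem of_cyc2 (w : ℕ) [NeZero w] (g n : ℕ) (hn : 0 < n) (hn2 : n % 2 = 0) (hg : g ^ n % w = 1 % w)
    (cl : List (ℕ × List (List ℕ))) (h1 : okCl (w + 2) cl = true)
    (h2 : okTrF (fun x => decide (x < w)) (cs2 w) cl = true)
    (h3 : okTh (th2 w g) cl = true) (h4 : 12 * cnt cl = (w + 2 - 1) * (w + 2 - 2))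
    (reps : List ℕ) (hr : (reps.all fun r => decide (r < w + 2)) = true)
    (h5 : reachAll (th2 w g) n reps 1 = 2 ^ (w + 2) - 1)
    (h6 : (reps.all fun r => cov r (allD (th2 w g) cl) 0 == 2 ^ (w + 2) - 1) = true) :
    ∃ 𝓑 : Set (Finset (ZMod w ⊕ Fin 2)), IsS35 (ZMod w ⊕ Fin 2) 𝓑 := by
  have hw0 : 0 < w := Nat.pos_of_ne_zero (NeZero.ne w)
  have hgn : ((g : ZMod w)) ^ n = 1 := by
    have : ((g ^ n : ℕ) : ZMod w) = ((1 : ℕ) : ZMod w) := by
      rw [ZMod.natCast_eq_natCast_iff]
      exact hg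
    rw [Nat.cast_pow, Nat.cast_one] at this
    exact this
  have hit : ∀ (i : ℕ) (x : ZMod w),
      (AddMonoidHom.mulLeft (g : ZMod w))^[i] x = (g : ZMod w) ^ i * x := by
    intro i
    induction i with
    | zero => intro x; simp
    | succ i ih =>
      intro x
      rw [Function.iterate_succ_apply, ih, AddMonoidHom.coe_mulLeft]
      ring
  have hinl : ∀ x < w, el2 w x = Sum.inl (x : ZMod w) := fun x hx => if_pos hx
  have hinr : ∀ x, ¬ x < w → el2 w x = Sum.inr (if x = w then 0 else 1) := fun x hx => if_neg hx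
  refine of_codes le_rfl (AddMonoidHom.mulLeft (g : ZMod w)) (fun k => 1 - k) n hn ?_ ?_ (w + 2) ?_
    (el2 w) (th2 w g) (fun x => decide (x < w)) (cs2 w) ?_ ?_ ?_ ?_ ?_ ?_ cl h1 h2 h3 h4 reps hr
    h5 h6
  · intro x
    rw [hit, hgn, one_mul]
  · intro k
    obtain ⟨m, rfl⟩ : ∃ m, n = 2 * m := ⟨n / 2, by omega⟩
    rw [Function.iterate_mul]
    have h2 : (fun k : Fin 2 => 1 - k)^[2] = id := by
      funext k
      fin_cases k <;> rfl
    rw [h2, Function.iterate_id]
    rfl
  · rw [Fintype.card_sum, ZMod.card, Fintype.card_fin]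
  · intro p
    rcases p with x | k
    · refine ⟨x.val, lt_of_lt_of_le (ZMod.val_lt x) (by omega), ?_⟩
      rw [hinl _ (ZMod.val_lt x), ZMod.natCast_zmod_val]
    · fin_cases k
      · refine ⟨w, by omega, ?_⟩
        rw [hinr w (lt_irrefl w), if_pos rfl]
        rfl
      · refine ⟨w + 1, by omega, ?_⟩
        rw [hinr (w + 1) (by omega), if_neg (by omega)]
        rfl
  · intro x hx y hy hxy
    by_cases hxw : x < w
    · by_cases hyw : y < w
      · rw [hinl x hxw, hinl y hyw] at hxy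
        have h := (ZMod.natCast_eq_natCast_iff x y w).1 (Sum.inl_injective hxy)
        have h' : x % w = y % w := h
        rwa [Nat.mod_eq_of_lt hxw, Nat.mod_eq_of_lt hyw] at h'
      · rw [hinl x hxw, hinr y hyw] at hxy
        exact absurd hxy Sum.inl_ne_inr
    · by_cases hyw : y < w
      · rw [hinr x hxw, hinl y hyw] at hxy
        exact absurd hxy Sum.inr_ne_inl
      · rw [hinr x hxw, hinr y hyw] at hxy
        have h := Sum.inr_injective hxy
        by_cases h1 : x = w
        · by_cases h2 : y = w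
          · omega
          · rw [if_pos h1, if_neg h2] at h
            exact absurd h (by decide)
        · by_cases h2 : y = w
          · rw [if_neg h1, if_pos h2] at h
            exact absurd h (by decide)
          · omega
  · rw [hinl 0 hw0]
    simp
  · intro x hx
    by_cases hxw : x < w
    · have h : th2 w g x = g * x % w := if_pos hxw
      have hlt : g * x % w < w := Nat.mod_lt _ hw0
      refine ⟨by omega, ?_⟩
      rw [h, hinl _ hlt, hinl _ hxw, ZMod.natCast_mod, Nat.cast_mul]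
      rfl
    · by_cases h1 : x = w
      · have h : th2 w g x = w + 1 := by
          unfold th2
          rw [if_neg hxw, if_pos h1]
        refine ⟨by omega, ?_⟩
        rw [h, hinr _ hxw, hinr (w + 1) (by omega), if_neg (by omega), if_pos h1]
        rfl
      · have h : th2 w g x = w := by
          unfold th2
          rw [if_neg hxw, if_neg h1]
        refine ⟨by omega, ?_⟩
        rw [h, hinr _ hxw, hinr w (lt_irrefl w), if_pos rfl, if_neg h1]
        rfl
  · intro x hx a ha
    by_cases hxw : x < w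
    · exact decide_eq_true hxw
    · rw [hinr x hxw] at ha
      exact absurd ha Sum.inr_ne_inl
  · intro x hx y hy a ha
    have hyw : y < w := by
      by_contra hyw
      rw [hinr y hyw] at ha
      exact absurd ha Sum.inr_ne_inl
    have hya : (y : ZMod w) = a := by
      rw [hinl y hyw] at ha
      exact Sum.inl_injective ha
    by_cases hxw : x < w
    · have h : cs2 w x y = (w - y + x) % w := if_pos hxw
      have hlt : (w - y + x) % w < w := Nat.mod_lt _ hw0
      refine ⟨by omega, ?_⟩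
      rw [h, hinl _ hlt, hinl _ hxw, sh_inl, ZMod.natCast_mod, Nat.cast_add, Nat.cast_sub hyw.le,
        ZMod.natCast_self, hya]
      congr 1
      ring
    · have h : cs2 w x y = x := if_neg hxw
      refine ⟨by omega, ?_⟩
      rw [h, hinr _ hxw, sh_inr]

end Pool.Agent.Y376.ST
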